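import Mathlib

/-!
# Parity of the transitive-tournament Ramsey numbers (MP_88ab92_co)

If `R(k)` were odd for some `k ≥ 3`, then every extremal `T_k`-free tournament would contain a
module of even order whose quotient by its maximal proper modules is a simple tournament of even
order at least six which is not one-point extendable.
-/

set_option autoImplicit false

namespace Pool.Agent.Results.MP_88ab92_co.EvenSimpleQuotient

/-- A tournament on the vertex set `V`: no loops, and exactly one of the arcs `u → v`, `v → u`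
for two distinct vertices `u`, `v`. -/
structure Tournament (V : Type) where
  /-- `arc u v` says that `u → v`. -/
  arc : V → V → Prop
  irrefl : ∀ v, ¬ arc v v
  one_arc : ∀ u v, u ≠ v → (arc u v ↔ ¬ arc v u)

/-- The set `X` of vertices contains a copy of the transitive tournament on `k` vertices:
vertices `f 0, f 1, …` of `X` with `f i → f j` whenever `i < j`. -/
def ContainsTT {V : Type} (T : Tournament V) (X : Finset V) (k : ℕ) : Prop :=
  ∃ f : Fin k → V, (∀ i, f i ∈ X) ∧ ∀ i j : Fin k, i < j → T.arc (f i) (f j)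

/-- The tournament Ramsey number: the least `N` such that every tournament on `N` vertices
contains a copy of the transitive tournament on `k` vertices. -/
noncomputable def R (k : ℕ) : ℕ :=
  sInf {N : ℕ | ∀ T : Tournament (Fin N), ContainsTT T Finset.univ k}

/-- `X` is a module of `T`: every vertex outside `X` dominates all of `X` or is dominated by all
of `X`. -/
def IsModule {V : Type} (T : Tournament V) (X : Finset V) : Prop :=
  ∀ v, v ∉ X → (∀ x ∈ X, T.arc v x) ∨ (∀ x ∈ X, T.arc x v)

/-- The subtournament of `T` on `X` is strongly connected: every nonempty proper subset `A` of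
`X` sends an arc to the rest of `X`. -/
def IsStrong {V : Type} [DecidableEq V] (T : Tournament V) (X : Finset V) : Prop :=
  ∀ A : Finset V, A ⊆ X → A.Nonempty → A ≠ X → ∃ a ∈ A, ∃ b ∈ X \ A, T.arc a b

/-- A tournament is simple if its only modules are the empty set, the single vertices and the
whole vertex set. -/
def IsSimple {q : ℕ} (Q : Tournament (Fin q)) : Prop :=
  ∀ Z : Finset (Fin q), IsModule Q Z → Z.card ≤ 1 ∨ Z = Finset.univ

/-- The set `S` of vertices induces a transitive tournament. -/
def IsTransitive {V : Type} (T : Tournament V) (S : Finset V) : Prop :=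
  ∀ a ∈ S, ∀ b ∈ S, ∀ c ∈ S, T.arc a b → T.arc b c → T.arc a c

/-- The largest transitive subtournament of `T` inside `X` has exactly `t` vertices. -/
def TransNumber {V : Type} (T : Tournament V) (X : Finset V) (t : ℕ) : Prop :=
  ContainsTT T X t ∧ ¬ ContainsTT T X (t + 1)

/-- The set `S` is monotone for the colouring `c`: all vertices of `S` of colour `false` come
before all vertices of `S` of colour `true`. -/
def IsMonotone {V : Type} (T : Tournament V) (S : Finset V) (c : V → Bool) : Prop :=
  ∀ a ∈ S, ∀ b ∈ S, T.arc a b → c a = true → c b = true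

section basics

variable {V : Type} (T : Tournament V)

lemma asymm {T : Tournament V} {u v : V} (h : T.arc u v) (h' : T.arc v u) : False := by
  by_cases huv : u = v
  · subst huv
    exact T.irrefl _ h
  · exact (T.one_arc u v huv).1 h h'

lemma total {u v : V} (huv : u ≠ v) : T.arc u v ∨ T.arc v u := by
  by_cases h : T.arc v u
  · exact Or.inr h
  · exact Or.inl ((T.one_arc u v huv).2 h)

lemma ne_of_arc {T : Tournament V} {u v : V} (h : T.arc u v) : u ≠ v := by
  rintro rfl
  exact T.irrefl _ h

/-- Pull back a tournament along an injective map. -/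
def comap {W : Type} (f : W → V) (hf : Function.Injective f) : Tournament W where
  arc u v := T.arc (f u) (f v)
  irrefl _ := T.irrefl _
  one_arc _ _ huv := T.one_arc _ _ (fun h => huv (hf h))

lemma IsTransitive.subset {T : Tournament V} {S S' : Finset V} (h : IsTransitive T S)
    (hs : S' ⊆ S) : IsTransitive T S' :=
  fun a ha b hb c hc => h a (hs ha) b (hs hb) c (hs hc)

/-- Containing a copy of the transitive tournament is the same as having a transitive subset of
the given size. -/
lemma containsTT_iff {X : Finset V} {k : ℕ} :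
    ContainsTT T X k ↔ ∃ S : Finset V, S ⊆ X ∧ IsTransitive T S ∧ S.card = k := by
  classical
  constructor
  · rintro ⟨f, hfX, hf⟩
    have hinj : Function.Injective f := by
      intro i j hij
      by_contra hne
      rcases lt_or_gt_of_ne hne with h | h
      · have := hf _ _ h
        rw [hij] at this
        exact T.irrefl _ this
      · have := hf _ _ h
        rw [hij] at this
        exact T.irrefl _ this
    have harc : ∀ i j, T.arc (f i) (f j) → i < j := by
      intro i j hij
      rcases lt_trichotomy i j with h | h | h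
      · exact h
      · subst h
        exact absurd hij (T.irrefl _)
      · exact absurd (hf _ _ h) (fun h' => asymm hij h')
    refine ⟨Finset.univ.image f, ?_, ?_, ?_⟩
    · intro x hx
      obtain ⟨i, -, rfl⟩ := Finset.mem_image.1 hx
      exact hfX i
    · intro a ha b hb c hc hab hbc
      obtain ⟨i, -, rfl⟩ := Finset.mem_image.1 ha
      obtain ⟨j, -, rfl⟩ := Finset.mem_image.1 hb
      obtain ⟨l, -, rfl⟩ := Finset.mem_image.1 hc
      exact hf _ _ ((harc _ _ hab).trans (harc _ _ hbc))
    · rw [Finset.card_image_of_injective _ hinj]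
      simp
  · rintro ⟨S, hSX, hS, hcard⟩
    let r : S → S → Prop := fun a b => T.arc a b
    have : IsStrictTotalOrder S r :=
      { trichotomous := fun a b h1 h2 => by
          by_contra hne
          have hne' : (a : V) ≠ b := fun h => hne (Subtype.ext h)
          rcases total T hne' with h | h
          · exact h1 h
          · exact h2 h
        irrefl := fun a => T.irrefl _
        trans := fun a b c hab hbc => hS a a.2 b b.2 c c.2 hab hbc }
    let _ := linearOrderOfSTO r
    let e : Fin k ≃o S := monoEquivOfFin S (by simpa using hcard)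
    refine ⟨fun i => (e i : V), fun i => hSX (e i).2, ?_⟩
    intro i j hij
    have : e i < e j := e.lt_iff_lt.2 hij
    exact this

end basics

section replacement

variable {V V' : Type}

/-- Every transitive set of `T'` is matched in size by a transitive subset of `X` in `T`. -/
def Below (T' : Tournament V') (T : Tournament V) (X : Finset V) : Prop :=
  ∀ S' : Finset V', IsTransitive T' S' → ∃ S ⊆ X, IsTransitive T S ∧ S.card = S'.card

lemma module_out {T : Tournament V} {M : Finset V} (hM : IsModule T M) {v m m' : V} (hv : v ∉ M)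
    (hm : m ∈ M) (hm' : m' ∈ M) : (T.arc v m → T.arc v m') ∧ (T.arc m v → T.arc m' v) := by
  rcases hM v hv with h | h
  · exact ⟨fun _ => h _ hm', fun h' => (asymm h' (h _ hm)).elim⟩
  · exact ⟨fun h' => (asymm h' (h _ hm)).elim, fun _ => h _ hm'⟩

/-- Replace the module `M` by the tournament `T'`. -/
def replace (T : Tournament V) (M : Finset V) (hM : IsModule T M) (hne : M.Nonempty)
    (T' : Tournament V') : Tournament ({v : V // v ∉ M} ⊕ V') where
  arc
    | Sum.inl u, Sum.inl v => T.arc u v
    | Sum.inr a, Sum.inr b => T'.arc a b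
    | Sum.inl u, Sum.inr _ => ∀ m ∈ M, T.arc u m
    | Sum.inr _, Sum.inl v => ∀ m ∈ M, T.arc m v
  irrefl
    | Sum.inl u => T.irrefl _
    | Sum.inr a => T'.irrefl _
  one_arc
    | Sum.inl u, Sum.inl v, h => T.one_arc _ _ (fun h' => h (congrArg Sum.inl (Subtype.ext h')))
    | Sum.inr a, Sum.inr b, h => T'.one_arc _ _ (fun h' => h (congrArg Sum.inr h'))
    | Sum.inl u, Sum.inr _, _ => by
      obtain ⟨m, hm⟩ := hne
      rcases hM u u.2 with h | h
      · exact ⟨fun _ h' => asymm (h m hm) (h' m hm), fun _ => h⟩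
      · exact ⟨fun h' _ => asymm (h m hm) (h' m hm), fun h' => absurd h h'⟩
    | Sum.inr _, Sum.inl u, _ => by
      obtain ⟨m, hm⟩ := hne
      rcases hM u u.2 with h | h
      · exact ⟨fun h' _ => asymm (h m hm) (h' m hm), fun h' => absurd h h'⟩
      · exact ⟨fun _ h' => asymm (h m hm) (h' m hm), fun _ => h⟩

lemma replace_below [Fintype V] (T : Tournament V) (M : Finset V) (hM : IsModule T M)
    (hne : M.Nonempty) (T' : Tournament V') (hT' : Below T' T M) :
    Below (replace T M hM hne T') T Finset.univ := by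
  classical
  intro S'' hS''
  have hin : IsTransitive T' S''.toRight := by
    intro a ha b hb c hc hab hbc
    rw [Finset.mem_toRight] at ha hb hc
    exact hS'' _ ha _ hb _ hc hab hbc
  obtain ⟨J, hJM, hJ, hcard⟩ := hT' _ hin
  have hlm : ∀ x, x ∈ (S''.toLeft).map (Function.Embedding.subtype _) →
      ∃ h : x ∉ M, Sum.inl ⟨x, h⟩ ∈ S'' := by
    intro x hx
    obtain ⟨y, hy, rfl⟩ := Finset.mem_map.1 hx
    exact ⟨y.2, Finset.mem_toLeft.1 hy⟩
  have hJin : ∀ x ∈ J, ∃ s, Sum.inr s ∈ S'' := by
    intro x hx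
    have : 0 < S''.toRight.card := by
      rw [← hcard]
      exact Finset.card_pos.2 ⟨x, hx⟩
    obtain ⟨s, hs⟩ := Finset.card_pos.1 this
    exact ⟨s, Finset.mem_toRight.1 hs⟩
  refine ⟨(S''.toLeft).map (Function.Embedding.subtype _) ∪ J, Finset.subset_univ _, ?_, ?_⟩
  · intro a ha b hb c hc hab hbc
    rw [Finset.mem_union] at ha hb hc
    rcases ha with ha | ha <;> rcases hb with hb | hb <;> rcases hc with hc | hc
    · obtain ⟨ha', ha⟩ := hlm a ha
      obtain ⟨hb', hb⟩ := hlm b hb
      obtain ⟨hc', hc⟩ := hlm c hc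
      exact hS'' _ ha _ hb _ hc hab hbc
    · obtain ⟨ha', ha⟩ := hlm a ha
      obtain ⟨hb', hb⟩ := hlm b hb
      obtain ⟨s, hs⟩ := hJin c hc
      have h1 : ∀ m ∈ M, T.arc b m := fun m hm => (module_out hM hb' (hJM hc) hm).1 hbc
      have h2 : ∀ m ∈ M, T.arc a m := hS'' _ ha _ hb _ hs hab h1
      exact h2 c (hJM hc)
    · obtain ⟨ha', ha⟩ := hlm a ha
      obtain ⟨hc', hc⟩ := hlm c hc
      obtain ⟨s, hs⟩ := hJin b hb
      have h1 : ∀ m ∈ M, T.arc a m := fun m hm => (module_out hM ha' (hJM hb) hm).1 hab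
      have h2 : ∀ m ∈ M, T.arc m c := fun m hm => (module_out hM hc' (hJM hb) hm).2 hbc
      exact hS'' _ ha _ hs _ hc h1 h2
    · obtain ⟨ha', ha⟩ := hlm a ha
      exact (module_out hM ha' (hJM hb) (hJM hc)).1 hab
    · obtain ⟨hb', hb⟩ := hlm b hb
      obtain ⟨hc', hc⟩ := hlm c hc
      obtain ⟨s, hs⟩ := hJin a ha
      have h1 : ∀ m ∈ M, T.arc m b := fun m hm => (module_out hM hb' (hJM ha) hm).2 hab
      have h2 : ∀ m ∈ M, T.arc m c := hS'' _ hs _ hb _ hc h1 hbc
      exact h2 a (hJM ha)
    · obtain ⟨hb', hb⟩ := hlm b hb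
      exact (asymm hab ((module_out hM hb' (hJM hc) (hJM ha)).1 hbc)).elim
    · obtain ⟨hc', hc⟩ := hlm c hc
      exact (module_out hM hc' (hJM hb) (hJM ha)).2 hbc
    · exact hJ a ha b hb c hc hab hbc
  · rw [Finset.card_union_of_disjoint, Finset.card_map, hcard,
      Finset.card_toLeft_add_card_toRight]
    rw [Finset.disjoint_left]
    intro x hx hxJ
    obtain ⟨hx', -⟩ := hlm x hx
    exact hx' (hJM hxJ)

/-- Add one vertex to the module `M`, dominating the vertices of colour `true` and dominated by
the others. -/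
def addPoint (T : Tournament V) (M : Finset V) (c : V → Bool) : Tournament (Option M) where
  arc
    | some a, some b => T.arc a b
    | none, some b => c b = true
    | some a, none => c a = false
    | none, none => False
  irrefl
    | some a => T.irrefl _
    | none => id
  one_arc
    | some a, some b, h => T.one_arc _ _ (fun h' => h (congrArg some (Subtype.ext h')))
    | none, some b, _ => by simp
    | some a, none, _ => by simp
    | none, none, h => (h rfl).elim

lemma addPoint_below (T : Tournament V) (M : Finset V) (c : V → Bool)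
    (hc : ∀ S ⊆ M, IsTransitive T S → (∀ a ∈ S, ∀ b ∈ S, T.arc a b → c a = true → c b = true) →
      ∃ S' ⊆ M, IsTransitive T S' ∧ S'.card = S.card + 1) :
    Below (addPoint T M c) T M := by
  classical
  intro S' hS'
  let S : Finset V := (S'.eraseNone).map (Function.Embedding.subtype _)
  have hmem : ∀ x, x ∈ S → ∃ h : x ∈ M, some ⟨x, h⟩ ∈ S' := by
    intro x hx
    obtain ⟨y, hy, rfl⟩ := Finset.mem_map.1 hx
    exact ⟨y.2, Finset.mem_eraseNone.1 hy⟩
  have hSM : S ⊆ M := fun x hx => (hmem x hx).1
  have hS : IsTransitive T S := by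
    intro a ha b hb d hd hab hbd
    obtain ⟨ha', ha⟩ := hmem a ha
    obtain ⟨hb', hb⟩ := hmem b hb
    obtain ⟨hd', hd⟩ := hmem d hd
    exact hS' _ ha _ hb _ hd hab hbd
  by_cases hn : none ∈ S'
  · have hcard : S'.card = S.card + 1 := by
      rw [Finset.card_map, Finset.card_eraseNone_of_mem hn]
      have := Finset.card_pos.2 ⟨_, hn⟩
      omega
    obtain ⟨S2, h1, h2, h3⟩ := hc S hSM hS (by
      intro a ha b hb hab hca
      obtain ⟨ha', ha⟩ := hmem a ha
      obtain ⟨hb', hb⟩ := hmem b hb
      exact hS' _ hn _ ha _ hb hca hab)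
    exact ⟨S2, h1, h2, by omega⟩
  · refine ⟨S, hSM, hS, ?_⟩
    rw [Finset.card_map, Finset.card_eraseNone_of_not_mem hn]

end replacement

section ramsey

/-- Transport of transitive sets along an injective map. -/
lemma IsTransitive.map {V W : Type} (T : Tournament V) (f : W ↪ V) {S : Finset W}
    (hS : IsTransitive (comap T f f.injective) S) : IsTransitive T (S.map f) := by
  intro a ha b hb c hc hab hbc
  obtain ⟨a', ha', rfl⟩ := Finset.mem_map.1 ha
  obtain ⟨b', hb', rfl⟩ := Finset.mem_map.1 hb
  obtain ⟨c', hc', rfl⟩ := Finset.mem_map.1 hc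
  exact hS a' ha' b' hb' c' hc' hab hbc

/-- Adding a vertex that dominates a transitive set. -/
lemma IsTransitive.insert_source {V : Type} [DecidableEq V] {T : Tournament V} {S : Finset V}
    (hS : IsTransitive T S) {v : V} (hv : ∀ u ∈ S, T.arc v u) : IsTransitive T (insert v S) := by
  intro a ha b hb c hc hab hbc
  rcases Finset.mem_insert.1 ha with h1 | h1
  · rcases Finset.mem_insert.1 hc with h3 | h3
    · rw [h1] at hab
      rw [h3] at hbc
      exact (asymm hab hbc).elim
    · rw [h1]
      exact hv c h3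
  · rcases Finset.mem_insert.1 hb with h2 | h2
    · rw [h2] at hab
      exact (asymm hab (hv a h1)).elim
    · rcases Finset.mem_insert.1 hc with h3 | h3
      · rw [h3] at hbc
        exact (asymm hbc (hv b h2)).elim
      · exact hS a h1 b h2 c h3 hab hbc

/-- Adding a vertex that is dominated by a transitive set. -/
lemma IsTransitive.insert_sink {V : Type} [DecidableEq V] {T : Tournament V} {S : Finset V}
    (hS : IsTransitive T S) {v : V} (hv : ∀ u ∈ S, T.arc u v) : IsTransitive T (insert v S) := by
  intro a ha b hb c hc hab hbc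
  rcases Finset.mem_insert.1 hc with h3 | h3
  · rcases Finset.mem_insert.1 ha with h1 | h1
    · rw [h1] at hab
      rw [h3] at hbc
      exact (asymm hab hbc).elim
    · rw [h3]
      exact hv a h1
  · rcases Finset.mem_insert.1 hb with h2 | h2
    · rw [h2] at hbc
      exact (asymm hbc (hv c h3)).elim
    · rcases Finset.mem_insert.1 ha with h1 | h1
      · rw [h1] at hab
        exact (asymm hab (hv b h2)).elim
      · exact hS a h1 b h2 c h3 hab hbc

/-- A set of `2 ^ k` vertices has a transitive subset of size `k`. -/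
lemma exists_transitive {V : Type} (T : Tournament V) (k : ℕ) :
    ∀ X : Finset V, 2 ^ k ≤ X.card → ∃ S ⊆ X, IsTransitive T S ∧ S.card = k := by
  classical
  induction k with
  | zero =>
    intro X _
    exact ⟨∅, Finset.empty_subset _, fun a ha => absurd ha (Finset.notMem_empty _), rfl⟩
  | succ k ih =>
    intro X hX
    have hpow : 2 ^ (k + 1) = 2 * 2 ^ k := by ring
    have hpos : 0 < 2 ^ k := Nat.pos_of_ne_zero (by positivity)
    obtain ⟨v, hv⟩ : X.Nonempty := Finset.card_pos.1 (by omega)
    have hsplit : ((X.erase v).filter (fun u => T.arc v u)).card +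
        ((X.erase v).filter (fun u => ¬ T.arc v u)).card = (X.erase v).card :=
      Finset.card_filter_add_card_filter_not _
    rw [Finset.card_erase_of_mem hv] at hsplit
    by_cases h1 : 2 ^ k ≤ ((X.erase v).filter (fun u => T.arc v u)).card
    · obtain ⟨S, hSX, hS, hcard⟩ := ih _ h1
      have hvS : ∀ u ∈ S, u ∈ X ∧ T.arc v u := fun u hu => by
        have := Finset.mem_filter.1 (hSX hu)
        exact ⟨Finset.mem_of_mem_erase this.1, this.2⟩
      refine ⟨insert v S, ?_, ?_, ?_⟩
      · intro u hu
        rcases Finset.mem_insert.1 hu with rfl | hu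
        · exact hv
        · exact (hvS u hu).1
      · exact hS.insert_source (fun u hu => (hvS u hu).2)
      · rw [Finset.card_insert_of_notMem (fun h => T.irrefl _ (hvS v h).2), hcard]
    · have h2 : 2 ^ k ≤ ((X.erase v).filter (fun u => ¬ T.arc v u)).card := by omega
      obtain ⟨S, hSX, hS, hcard⟩ := ih _ h2
      have hvS : ∀ u ∈ S, u ∈ X ∧ T.arc u v := fun u hu => by
        have := Finset.mem_filter.1 (hSX hu)
        have hne : u ≠ v := Finset.ne_of_mem_erase this.1
        exact ⟨Finset.mem_of_mem_erase this.1, (T.one_arc u v hne).2 this.2⟩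
      refine ⟨insert v S, ?_, ?_, ?_⟩
      · intro u hu
        rcases Finset.mem_insert.1 hu with rfl | hu
        · exact hv
        · exact (hvS u hu).1
      · exact hS.insert_sink (fun u hu => (hvS u hu).2)
      · rw [Finset.card_insert_of_notMem (fun h => T.irrefl _ (hvS v h).2), hcard]

lemma R_nonempty (k : ℕ) :
    {N : ℕ | ∀ T : Tournament (Fin N), ContainsTT T Finset.univ k}.Nonempty := by
  refine ⟨2 ^ k, fun T => (containsTT_iff T).2 ?_⟩
  exact exists_transitive T k Finset.univ (by simp)

/-- Every tournament with at least `R k` vertices contains the transitive tournament. -/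
lemma exists_of_R_le {V : Type} (T : Tournament V) (k : ℕ) (X : Finset V) (hX : R k ≤ X.card) :
    ∃ S ⊆ X, IsTransitive T S ∧ S.card = k := by
  classical
  have hmem : ∀ T : Tournament (Fin (R k)), ContainsTT T Finset.univ k :=
    Nat.sInf_mem (R_nonempty k)
  let e : Fin (R k) ↪ V := (Fin.castLEEmb hX).trans
    ((X.equivFin.symm.toEmbedding).trans (Function.Embedding.subtype _))
  obtain ⟨S, -, hS, hcard⟩ := (containsTT_iff _).1 (hmem (comap T e e.injective))
  refine ⟨S.map e, ?_, IsTransitive.map T e hS, by rw [Finset.card_map, hcard]⟩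
  intro x hx
  obtain ⟨i, -, rfl⟩ := Finset.mem_map.1 hx
  exact (X.equivFin.symm (Fin.castLE hX i)).2

/-- Below `R k` there are tournaments without the transitive tournament. -/
lemma exists_free {k N : ℕ} (h : N < R k) :
    ∃ T : Tournament (Fin N), ¬ ContainsTT T Finset.univ k := by
  have := Nat.notMem_of_lt_sInf h
  simp only [Set.mem_ofPred_eq, not_forall] at this
  exact this

end ramsey

/-- `T` is optimal: no tournament with more vertices has only transitive sets of sizes that occur
in `T`. -/
def Optimal {V : Type} [Fintype V] (T : Tournament V) : Prop :=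
  ∀ (W : Type) [Fintype W] (T' : Tournament W), Below T' T Finset.univ →
    Fintype.card W ≤ Fintype.card V

lemma optimal_of_extremal {k : ℕ} (T : Tournament (Fin (R k - 1)))
    (hT : ¬ ContainsTT T Finset.univ k) : Optimal T := by
  classical
  intro W _ T' hb
  by_contra hlt
  push Not at hlt
  rw [Fintype.card_fin] at hlt
  obtain ⟨S, -, hS, hcard⟩ := exists_of_R_le T' k Finset.univ (by
    rw [Finset.card_univ]
    omega)
  obtain ⟨S', hS'X, hS', hcard'⟩ := hb S hS
  exact hT ((containsTT_iff T).2 ⟨S', hS'X, hS', by omega⟩)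

section optimal

variable {V : Type} [Fintype V]

lemma card_replace (M : Finset V) (V' : Type) [Fintype V'] [DecidableEq V] :
    Fintype.card ({v : V // v ∉ M} ⊕ V') + M.card = Fintype.card V + Fintype.card V' := by
  classical
  rw [Fintype.card_sum, Fintype.card_subtype_compl (fun v => v ∈ M)]
  have h1 : Fintype.card {v : V // v ∈ M} = M.card := Fintype.card_coe M
  have h2 : M.card ≤ Fintype.card V := Finset.card_le_univ M
  omega

/-- A module of an optimal tournament cannot be replaced by a larger tournament. -/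
lemma Optimal.module {T : Tournament V} (hT : Optimal T) {M : Finset V} (hM : IsModule T M)
    (hne : M.Nonempty) {V' : Type} [Fintype V'] (T' : Tournament V') (hb : Below T' T M) :
    Fintype.card V' ≤ M.card := by
  classical
  have h1 := hT _ (replace T M hM hne T') (replace_below T M hM hne T' hb)
  have h2 := card_replace M V'
  omega

/-- No colouring of a module of an optimal tournament gives a one-point extension. -/
lemma Optimal.color {T : Tournament V} (hT : Optimal T) {M : Finset V} (hM : IsModule T M)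
    (hne : M.Nonempty) (c : V → Bool) :
    ∃ S ⊆ M, IsTransitive T S ∧ (∀ a ∈ S, ∀ b ∈ S, T.arc a b → c a = true → c b = true) ∧
      ∀ S' ⊆ M, IsTransitive T S' → S'.card ≠ S.card + 1 := by
  classical
  by_contra hcon
  push Not at hcon
  have := hT.module hM hne (addPoint T M c) (addPoint_below T M c (fun S h1 h2 h3 => by
    obtain ⟨S', h4, h5, h6⟩ := hcon S h1 h2 h3
    exact ⟨S', h4, h5, h6⟩))
  rw [Fintype.card_option, Fintype.card_coe] at this
  omega

/-- Modules of optimal tournaments are extremal. -/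
lemma Optimal.card {T : Tournament V} (hT : Optimal T) {M : Finset V} (hM : IsModule T M)
    (hne : M.Nonempty) :
    ∃ t : ℕ, ContainsTT T M t ∧ ¬ ContainsTT T M (t + 1) ∧ M.card + 1 = R (t + 1) := by
  classical
  have hex : ∃ t, ¬ ContainsTT T M (t + 1) := by
    refine ⟨M.card, fun h => ?_⟩
    obtain ⟨S, h1, -, h3⟩ := (containsTT_iff T).1 h
    have := Finset.card_le_card h1
    omega
  have hmin : ContainsTT T M (Nat.find hex) := by
    by_cases h0 : Nat.find hex = 0
    · rw [h0]
      exact (containsTT_iff T).2 ⟨∅, Finset.empty_subset _,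
        fun a ha => absurd ha (Finset.notMem_empty _), rfl⟩
    · have := Nat.find_min hex (m := Nat.find hex - 1) (by omega)
      rw [not_not] at this
      have h1 : Nat.find hex - 1 + 1 = Nat.find hex := by omega
      rwa [h1] at this
  refine ⟨Nat.find hex, hmin, Nat.find_spec hex, ?_⟩
  set t := Nat.find hex with ht
  have hspec : ¬ ContainsTT T M (t + 1) := Nat.find_spec hex
  have h1 : M.card < R (t + 1) := by
    by_contra h
    push Not at h
    exact hspec ((containsTT_iff T).2 (exists_of_R_le T (t + 1) M h))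
  obtain ⟨T', hT'⟩ := exists_free (k := t + 1) (N := R (t + 1) - 1) (by omega)
  obtain ⟨J, hJM, hJ, hJc⟩ := (containsTT_iff T).1 hmin
  have h2 := hT.module hM hne T' (by
    intro S' hS'
    have h3 : S'.card ≤ t := by
      by_contra h
      push Not at h
      obtain ⟨S2, h4, h5⟩ := Finset.exists_subset_card_eq (s := S') (n := t + 1) (by omega)
      exact hT' ((containsTT_iff T').2 ⟨S2, Finset.subset_univ _, hS'.subset h4, h5⟩)
    obtain ⟨J2, h4, h5⟩ := Finset.exists_subset_card_eq (s := J) (n := S'.card) (by omega)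
    exact ⟨J2, h4.trans hJM, hJ.subset h4, h5⟩)
  rw [Fintype.card_fin] at h2
  omega

/-- The tournament that consists of three tournaments `A`, `B`, `C`, with all arcs from `A` to
`B`, from `B` to `C` and from `C` to `A`. -/
def cyc3 {A B C : Type} (TA : Tournament A) (TB : Tournament B) (TC : Tournament C) :
    Tournament (A ⊕ (B ⊕ C)) where
  arc
    | Sum.inl a, Sum.inl a' => TA.arc a a'
    | Sum.inr (Sum.inl b), Sum.inr (Sum.inl b') => TB.arc b b'
    | Sum.inr (Sum.inr c), Sum.inr (Sum.inr c') => TC.arc c c'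
    | Sum.inl _, Sum.inr (Sum.inl _) => True
    | Sum.inr (Sum.inl _), Sum.inr (Sum.inr _) => True
    | Sum.inr (Sum.inr _), Sum.inl _ => True
    | _, _ => False
  irrefl
    | Sum.inl a => TA.irrefl a
    | Sum.inr (Sum.inl b) => TB.irrefl b
    | Sum.inr (Sum.inr c) => TC.irrefl c
  one_arc
    | Sum.inl a, Sum.inl a', h => TA.one_arc _ _ (fun h' => h (by rw [h']))
    | Sum.inr (Sum.inl b), Sum.inr (Sum.inl b'), h => TB.one_arc _ _ (fun h' => h (by rw [h']))
    | Sum.inr (Sum.inr c), Sum.inr (Sum.inr c'), h => TC.one_arc _ _ (fun h' => h (by rw [h']))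
    | Sum.inl _, Sum.inr (Sum.inl _), _ => by simp
    | Sum.inr (Sum.inl _), Sum.inr (Sum.inr _), _ => by simp
    | Sum.inr (Sum.inr _), Sum.inl _, _ => by simp
    | Sum.inr (Sum.inl _), Sum.inl _, _ => by simp
    | Sum.inr (Sum.inr _), Sum.inr (Sum.inl _), _ => by simp
    | Sum.inl _, Sum.inr (Sum.inr _), _ => by simp

/-- If the transitive sets of `A`, `B`, `C` have sizes at most `s`, `u`, `u`, those of the cyclic
composition have sizes at most `max (s + u) (2 u)`. -/
lemma cyc3_card {A B C : Type} (TA : Tournament A) (TB : Tournament B) (TC : Tournament C)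
    {s u : ℕ} (hA : ∀ S, IsTransitive TA S → S.card ≤ s) (hB : ∀ S, IsTransitive TB S → S.card ≤ u)
    (hC : ∀ S, IsTransitive TC S → S.card ≤ u) (hus : u ≤ s) (S : Finset (A ⊕ (B ⊕ C)))
    (hS : IsTransitive (cyc3 TA TB TC) S) : S.card ≤ s + u := by
  classical
  have h1 : S.toLeft.card ≤ s := by
    refine hA _ ?_
    intro a ha b hb c hc hab hbc
    rw [Finset.mem_toLeft] at ha hb hc
    exact hS _ ha _ hb _ hc hab hbc
  have h2 : S.toRight.toLeft.card ≤ u := by
    refine hB _ ?_
    intro a ha b hb c hc hab hbc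
    rw [Finset.mem_toLeft, Finset.mem_toRight] at ha hb hc
    exact hS _ ha _ hb _ hc hab hbc
  have h3 : S.toRight.toRight.card ≤ u := by
    refine hC _ ?_
    intro a ha b hb c hc hab hbc
    rw [Finset.mem_toRight, Finset.mem_toRight] at ha hb hc
    exact hS _ ha _ hb _ hc hab hbc
  have h4 := Finset.card_toLeft_add_card_toRight (u := S)
  have h5 := Finset.card_toLeft_add_card_toRight (u := S.toRight)
  by_cases hl : S.toLeft = ∅
  · rw [hl, Finset.card_empty] at h4
    omega
  · by_cases hm : S.toRight.toLeft = ∅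
    · rw [hm, Finset.card_empty] at h5
      omega
    · by_cases hr : S.toRight.toRight = ∅
      · rw [hr, Finset.card_empty] at h5
        omega
      · exfalso
        obtain ⟨a, ha⟩ := Finset.nonempty_iff_ne_empty.2 hl
        obtain ⟨b, hb⟩ := Finset.nonempty_iff_ne_empty.2 hm
        obtain ⟨c, hc⟩ := Finset.nonempty_iff_ne_empty.2 hr
        rw [Finset.mem_toLeft] at ha
        rw [Finset.mem_toLeft, Finset.mem_toRight] at hb
        rw [Finset.mem_toRight, Finset.mem_toRight] at hc
        exact hS _ ha _ hb _ hc trivial trivial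

/-- A proper submodule `X` of a module `M` of an optimal tournament whose transitive number is at
least half of that of `M` has an order of the same parity as `M`. -/
lemma Optimal.half {T : Tournament V} (hT : Optimal T) {M X : Finset V} (hM : IsModule T M)
    (hXM : X ⊆ M) (hX : IsModule T X) (hXne : X.Nonempty) {t s : ℕ} (htM : ContainsTT T M t)
    (htM' : ¬ ContainsTT T M (t + 1)) (hsX : ContainsTT T X s) (hsX' : ¬ ContainsTT T X (s + 1))
    (hts : t ≤ 2 * s) : M.card % 2 = X.card % 2 := by
  classical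
  obtain ⟨J, hJX, hJ, hJc⟩ := (containsTT_iff T).1 hsX
  have hst : s ≤ t := by
    by_contra hlt
    push Not at hlt
    obtain ⟨J2, h4, h5⟩ := Finset.exists_subset_card_eq (s := J) (n := t + 1) (by omega)
    exact htM' ((containsTT_iff T).2 ⟨J2, h4.trans (hJX.trans hXM), hJ.subset h4, h5⟩)
  obtain ⟨x0, hx0⟩ := hXne
  let Np : Finset V := (M \ X).filter (fun v => T.arc x0 v)
  let Nm : Finset V := (M \ X).filter (fun v => ¬ T.arc x0 v)
  have hcard : Np.card + Nm.card = (M \ X).card := Finset.card_filter_add_card_filter_not _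
  have hcard2 : (M \ X).card + X.card = M.card := Finset.card_sdiff_add_card_eq_card hXM
  have hpout : ∀ v ∈ Np, v ∈ M ∧ v ∉ X ∧ ∀ x ∈ X, T.arc x v := by
    intro v hv
    obtain ⟨h1, h2⟩ := Finset.mem_filter.1 hv
    obtain ⟨h3, h4⟩ := Finset.mem_sdiff.1 h1
    exact ⟨h3, h4, fun x hx => (module_out hX h4 hx0 hx).2 h2⟩
  have hmout : ∀ v ∈ Nm, v ∈ M ∧ v ∉ X ∧ ∀ x ∈ X, T.arc v x := by
    intro v hv
    obtain ⟨h1, h2⟩ := Finset.mem_filter.1 hv
    obtain ⟨h3, h4⟩ := Finset.mem_sdiff.1 h1
    have hne : v ≠ x0 := fun h => h4 (h ▸ hx0)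
    exact ⟨h3, h4, fun x hx => (module_out hX h4 hx0 hx).1 ((T.one_arc v x0 hne).2 h2)⟩
  have hNp : Np.card < R (t - s + 1) := by
    by_contra hlt
    push Not at hlt
    obtain ⟨S, hSN, hS, hSc⟩ := exists_of_R_le T _ Np hlt
    refine htM' ((containsTT_iff T).2 ⟨J ∪ S, ?_, ?_, ?_⟩)
    · exact Finset.union_subset (hJX.trans hXM) (fun v hv => (hpout v (hSN hv)).1)
    · intro a ha b hb c hc hab hbc
      rcases Finset.mem_union.1 ha with ha1 | ha1
      · rcases Finset.mem_union.1 hc with hc1 | hc1
        · rcases Finset.mem_union.1 hb with hb1 | hb1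
          · exact hJ a ha1 b hb1 c hc1 hab hbc
          · exact (asymm hbc ((hpout b (hSN hb1)).2.2 c (hJX hc1))).elim
        · exact (hpout c (hSN hc1)).2.2 a (hJX ha1)
      · rcases Finset.mem_union.1 hb with hb1 | hb1
        · exact (asymm hab ((hpout a (hSN ha1)).2.2 b (hJX hb1))).elim
        · rcases Finset.mem_union.1 hc with hc1 | hc1
          · exact (asymm hbc ((hpout b (hSN hb1)).2.2 c (hJX hc1))).elim
          · exact hS a ha1 b hb1 c hc1 hab hbc
    · rw [Finset.card_union_of_disjoint, hJc, hSc]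
      · omega
      · rw [Finset.disjoint_left]
        intro v hv hv'
        exact (hpout v (hSN hv')).2.1 (hJX hv)
  have hNm : Nm.card < R (t - s + 1) := by
    by_contra hlt
    push Not at hlt
    obtain ⟨S, hSN, hS, hSc⟩ := exists_of_R_le T _ Nm hlt
    refine htM' ((containsTT_iff T).2 ⟨J ∪ S, ?_, ?_, ?_⟩)
    · exact Finset.union_subset (hJX.trans hXM) (fun v hv => (hmout v (hSN hv)).1)
    · intro a ha b hb c hc hab hbc
      rcases Finset.mem_union.1 hc with hc1 | hc1
      · rcases Finset.mem_union.1 ha with ha1 | ha1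
        · rcases Finset.mem_union.1 hb with hb1 | hb1
          · exact hJ a ha1 b hb1 c hc1 hab hbc
          · exact (asymm hab ((hmout b (hSN hb1)).2.2 a (hJX ha1))).elim
        · exact (hmout a (hSN ha1)).2.2 c (hJX hc1)
      · rcases Finset.mem_union.1 hb with hb1 | hb1
        · exact (asymm hbc ((hmout c (hSN hc1)).2.2 b (hJX hb1))).elim
        · rcases Finset.mem_union.1 ha with ha1 | ha1
          · exact (asymm hab ((hmout b (hSN hb1)).2.2 a (hJX ha1))).elim
          · exact hS a ha1 b hb1 c hc1 hab hbc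
    · rw [Finset.card_union_of_disjoint, hJc, hSc]
      · omega
      · rw [Finset.disjoint_left]
        intro v hv hv'
        exact (hmout v (hSN hv')).2.1 (hJX hv)
  obtain ⟨T', hT'⟩ := exists_free (k := t - s + 1) (N := R (t - s + 1) - 1) (by omega)
  have hfree : ∀ S, IsTransitive T' S → S.card ≤ t - s := by
    intro S hS
    by_contra h
    push Not at h
    obtain ⟨S2, h4, h5⟩ := Finset.exists_subset_card_eq (s := S) (n := t - s + 1) (by omega)
    exact hT' ((containsTT_iff T').2 ⟨S2, Finset.subset_univ _, hS.subset h4, h5⟩)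
  let TX : Tournament X := comap T (fun x : X => (x : V)) Subtype.val_injective
  have hTX : ∀ S, IsTransitive TX S → S.card ≤ s := by
    intro S hS
    by_contra h
    push Not at h
    obtain ⟨S2, h4, h5⟩ := Finset.exists_subset_card_eq (s := S) (n := s + 1) (by omega)
    refine hsX' ((containsTT_iff T).2 ⟨S2.map (Function.Embedding.subtype _), ?_, ?_, ?_⟩)
    · intro x hx
      obtain ⟨y, -, rfl⟩ := Finset.mem_map.1 hx
      exact y.2
    · exact IsTransitive.map T (Function.Embedding.subtype _) (hS.subset h4)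
    · rw [Finset.card_map, h5]
  obtain ⟨J', hJM, hJ', hJc'⟩ := (containsTT_iff T).1 htM
  have hlow := hT.module hM ⟨x0, hXM hx0⟩ (cyc3 TX T' T') (by
    intro S' hS'
    have h3 := cyc3_card TX T' T' hTX hfree hfree (by omega) S' hS'
    obtain ⟨J2, h4, h5⟩ := Finset.exists_subset_card_eq (s := J') (n := S'.card) (by omega)
    exact ⟨J2, h4.trans hJM, hJ'.subset h4, h5⟩)
  rw [Fintype.card_sum, Fintype.card_sum, Fintype.card_coe, Fintype.card_fin] at hlow
  omega

/-- Modules of optimal tournaments are strongly connected. -/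
lemma Optimal.strong [DecidableEq V] {T : Tournament V} (hT : Optimal T) {M : Finset V}
    (hM : IsModule T M) : IsStrong T M := by
  intro A hAM hAne hAM'
  by_contra hcon
  push Not at hcon
  have hne : M.Nonempty := hAne.mono hAM
  have harc : ∀ a ∈ A, ∀ b ∈ M \ A, T.arc b a := by
    intro a ha b hb
    have hab : b ≠ a := by
      rintro rfl
      exact (Finset.mem_sdiff.1 hb).2 ha
    exact (T.one_arc b a hab).2 (hcon a ha b hb)
  obtain ⟨b0, hb0⟩ : (M \ A).Nonempty := by
    rw [Finset.sdiff_nonempty]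
    intro h
    exact hAM' (Finset.Subset.antisymm hAM h)
  obtain ⟨a0, ha0⟩ := hAne
  obtain ⟨S, hSM, hS, hmono, hmax⟩ := hT.color hM hne (fun x => decide (x ∉ A))
  by_cases hSA : ∃ b ∈ S, b ∉ A
  · obtain ⟨b, hbS, hbA⟩ := hSA
    have hall : ∀ a ∈ S, a ∈ M \ A := by
      intro a ha
      by_contra hn
      have haA : a ∈ A := by
        by_contra h'
        exact hn (Finset.mem_sdiff.2 ⟨hSM ha, h'⟩)
      have := hmono b hbS a ha (harc a haA b (Finset.mem_sdiff.2 ⟨hSM hbS, hbA⟩))
        (by simpa using hbA)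
      simp [haA] at this
    refine hmax (insert a0 S) ?_ ?_ ?_
    · intro x hx
      rcases Finset.mem_insert.1 hx with rfl | hx
      · exact hAM ha0
      · exact hSM hx
    · exact hS.insert_sink (fun u hu => harc _ ha0 _ (hall u hu))
    · rw [Finset.card_insert_of_notMem]
      intro h
      exact (Finset.mem_sdiff.1 (hall _ h)).2 ha0
  · push Not at hSA
    refine hmax (insert b0 S) ?_ ?_ ?_
    · intro x hx
      rcases Finset.mem_insert.1 hx with rfl | hx
      · exact (Finset.mem_sdiff.1 hb0).1
      · exact hSM hx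
    · exact hS.insert_source (fun u hu => harc _ (hSA u hu) _ hb0)
    · rw [Finset.card_insert_of_notMem]
      intro h
      exact (Finset.mem_sdiff.1 hb0).2 (hSA _ h)

end optimal

section small

/-- The table of a tournament on four vertices. -/
def tab (b01 b02 b03 b12 b13 b23 : Bool) : Fin 4 → Fin 4 → Bool :=
  ![![false, b01, b02, b03], ![!b01, false, b12, b13], ![!b02, !b12, false, b23],
    ![!b03, !b13, !b23, false]]

lemma tab_module : ∀ b01 b02 b03 b12 b13 b23 : Bool, ∃ Z : Finset (Fin 4),
    (∀ v, v ∉ Z → (∀ x ∈ Z, tab b01 b02 b03 b12 b13 b23 v x = true) ∨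
      (∀ x ∈ Z, tab b01 b02 b03 b12 b13 b23 x v = true)) ∧ 2 ≤ Z.card ∧ Z ≠ Finset.univ := by
  decide

/-- There is no simple tournament on four vertices. -/
lemma not_simple_four (Q : Tournament (Fin 4)) : ¬ IsSimple Q := by
  classical
  intro hs
  obtain ⟨Z, hZ, h2, hne⟩ := tab_module (decide (Q.arc 0 1)) (decide (Q.arc 0 2))
    (decide (Q.arc 0 3)) (decide (Q.arc 1 2)) (decide (Q.arc 1 3)) (decide (Q.arc 2 3))
  have htab : ∀ i j, tab (decide (Q.arc 0 1)) (decide (Q.arc 0 2)) (decide (Q.arc 0 3))
      (decide (Q.arc 1 2)) (decide (Q.arc 1 3)) (decide (Q.arc 2 3)) i j = true ↔ Q.arc i j := by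
    have h10 := Q.one_arc 1 0 (by decide)
    have h20 := Q.one_arc 2 0 (by decide)
    have h30 := Q.one_arc 3 0 (by decide)
    have h21 := Q.one_arc 2 1 (by decide)
    have h31 := Q.one_arc 3 1 (by decide)
    have h32 := Q.one_arc 3 2 (by decide)
    intro i j
    fin_cases i <;> fin_cases j <;> simp [tab, Q.irrefl, h10, h20, h30, h21, h31, h32]
  have hmod : IsModule Q Z := by
    intro v hv
    rcases hZ v hv with h | h
    · exact Or.inl fun x hx => (htab _ _).1 (h x hx)
    · exact Or.inr fun x hx => (htab _ _).1 (h x hx)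
  rcases hs Z hmod with h | h
  · omega
  · exact hne h

lemma six_le {q : ℕ} (Q : Tournament (Fin q)) (hs : IsSimple Q) (hout : ∀ i, ∃ j, Q.arc i j)
    (hin : ∀ i, ∃ j, Q.arc j i) (heven : Even q) (hpos : 0 < q) : 6 ≤ q := by
  by_contra hlt
  obtain ⟨m, hm⟩ := heven
  have hq : q = 2 ∨ q = 4 := by omega
  rcases hq with h | h
  · subst h
    obtain ⟨j, hj⟩ := hout 0
    obtain ⟨l, hl⟩ := hin 0
    have h1 : j = 1 := by
      have := ne_of_arc hj
      omega
    have h2 : l = 1 := by
      have := ne_of_arc hl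
      omega
    rw [h1] at hj
    rw [h2] at hl
    exact asymm hj hl
  · subst h
    exact not_simple_four Q hs

end small

section decomposition

variable {V : Type} [DecidableEq V]

lemma IsModule.union {T : Tournament V} {X Y : Finset V} (hX : IsModule T X) (hY : IsModule T Y)
    {z : V} (hzX : z ∈ X) (hzY : z ∈ Y) : IsModule T (X ∪ Y) := by
  intro v hv
  rw [Finset.mem_union, not_or] at hv
  rcases hX v hv.1 with h | h
  · left
    intro x hx
    rcases Finset.mem_union.1 hx with hx | hx
    · exact h x hx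
    · exact (module_out hY hv.2 hzY hx).1 (h z hzX)
  · right
    intro x hx
    rcases Finset.mem_union.1 hx with hx | hx
    · exact h x hx
    · exact (module_out hY hv.2 hzY hx).2 (h z hzX)

lemma union_ne {T : Tournament V} {M X Y : Finset V} (hM : IsStrong T M) (hX : IsModule T X)
    (hXM : X ⊆ M) (hXM' : X ≠ M) (hY : IsModule T Y) (hYM' : Y ≠ M) {z : V}
    (hzX : z ∈ X) : X ∪ Y ≠ M := by
  intro hU
  have hYM : Y ⊆ M := by
    rw [← hU]
    exact Finset.subset_union_right
  obtain ⟨x', hx'M, hx'Y⟩ : ∃ x' ∈ M, x' ∉ Y := by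
    by_contra hcon
    push Not at hcon
    exact hYM' (Finset.Subset.antisymm hYM hcon)
  have hx'X : x' ∈ X := by
    rw [← hU, Finset.mem_union] at hx'M
    exact hx'M.resolve_right hx'Y
  have hin : ∀ b ∈ M \ X, b ∈ Y ∧ b ∉ X := by
    intro b hb
    have hb' := Finset.mem_sdiff.1 hb
    have h1 := hb'.1
    rw [← hU, Finset.mem_union] at h1
    exact ⟨h1.resolve_left hb'.2, hb'.2⟩
  rcases hY x' hx'Y with h | h
  · obtain ⟨a, ha, b, hb, hab⟩ := hM (M \ X) Finset.sdiff_subset (by
      rw [Finset.sdiff_nonempty]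
      intro h'
      exact hXM' (Finset.Subset.antisymm hXM h')) (by
      intro h'
      have : z ∈ M \ X := by
        rw [h']
        exact hXM hzX
      exact (Finset.mem_sdiff.1 this).2 hzX)
    have hbX : b ∈ X := by
      have hb' := Finset.mem_sdiff.1 hb
      by_contra hn
      exact hb'.2 (Finset.mem_sdiff.2 ⟨hb'.1, hn⟩)
    obtain ⟨haY, haX⟩ := hin a ha
    exact asymm hab ((module_out hX haX hx'X hbX).2 (h a haY))
  · obtain ⟨a, ha, b, hb, hab⟩ := hM X hXM ⟨z, hzX⟩ hXM'
    obtain ⟨hbY, hbX⟩ := hin b hb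
    exact asymm hab ((module_out hX hbX hx'X ha).1 (h b hbY))

omit [DecidableEq V] in
lemma singleton_module (T : Tournament V) (x : V) : IsModule T {x} := by
  intro v hv
  have hne : v ≠ x := fun h => hv (Finset.mem_singleton.2 h)
  rcases total T hne with h | h
  · left
    intro y hy
    rwa [Finset.mem_singleton.1 hy]
  · right
    intro y hy
    rwa [Finset.mem_singleton.1 hy]

/-- The largest proper submodule that contains a given vertex. -/
lemma exists_max {T : Tournament V} {M : Finset V} (hM : IsStrong T M) (h2 : 2 ≤ M.card) {x : V}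
    (hx : x ∈ M) : ∃ P : Finset V, (P ⊆ M ∧ P ≠ M ∧ IsModule T P) ∧ x ∈ P ∧
      ∀ Y : Finset V, (Y ⊆ M ∧ Y ≠ M ∧ IsModule T Y) → x ∈ Y → Y ⊆ P := by
  classical
  let fam : Finset (Finset V) :=
    M.powerset.filter (fun P => P ≠ M ∧ IsModule T P ∧ x ∈ P)
  have hfam : fam.Nonempty := by
    refine ⟨{x}, Finset.mem_filter.2 ⟨Finset.mem_powerset.2 ?_, ?_, singleton_module T x, ?_⟩⟩
    · intro y hy
      rwa [Finset.mem_singleton.1 hy]
    · intro h
      rw [← h] at h2
      simp at h2
    · exact Finset.mem_singleton_self x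
  obtain ⟨P, hP, hmax⟩ := Finset.exists_max_image fam Finset.card hfam
  obtain ⟨hPM, hPne, hPmod, hxP⟩ := Finset.mem_filter.1 hP
  rw [Finset.mem_powerset] at hPM
  refine ⟨P, ⟨hPM, hPne, hPmod⟩, hxP, ?_⟩
  rintro Y ⟨hYM, hYne, hYmod⟩ hxY
  have hu : P ∪ Y ∈ fam := by
    refine Finset.mem_filter.2 ⟨Finset.mem_powerset.2 (Finset.union_subset hPM hYM), ?_, ?_, ?_⟩
    · exact union_ne hM hPmod hPM hPne hYmod hYne hxP
    · exact hPmod.union hYmod hxP hxY
    · exact Finset.mem_union_left _ hxP
  have hcard := hmax _ hu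
  have heq : P = P ∪ Y := Finset.eq_of_subset_of_card_le Finset.subset_union_left hcard
  rw [heq]
  exact Finset.subset_union_right

end decomposition

/-- The structure of a minimal even module of an optimal tournament. -/
lemma Optimal.structure {V : Type} [Fintype V] [DecidableEq V] {T : Tournament V}
    (hT : Optimal T) {M : Finset V} (hM : IsModule T M) (hne : M.Nonempty) (heven : Even M.card)
    (hmin : ∀ X : Finset V, X.Nonempty → IsModule T X → Even X.card → M.card ≤ X.card) :
    ∃ (q : ℕ) (Q : Tournament (Fin q)) (π : V → Fin q),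
      Even q ∧ 6 ≤ q ∧ IsSimple Q ∧
      (∀ i : Fin q, (M.filter (fun x => π x = i)).Nonempty ∧
        IsModule T (M.filter (fun x => π x = i)) ∧ Odd (M.filter (fun x => π x = i)).card) ∧
      ∀ x ∈ M, ∀ y ∈ M, π x ≠ π y → (T.arc x y ↔ Q.arc (π x) (π y)) := by
  classical
  have hstrong : IsStrong T M := hT.strong hM
  have h2 : 2 ≤ M.card := by
    have := Finset.card_pos.2 hne
    obtain ⟨m, hm⟩ := heven
    omega
  have hex : ∀ x : V, ∃ P : Finset V, x ∈ M → (P ⊆ M ∧ P ≠ M ∧ IsModule T P) ∧ x ∈ P ∧
      ∀ Y : Finset V, (Y ⊆ M ∧ Y ≠ M ∧ IsModule T Y) → x ∈ Y → Y ⊆ P := by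
    intro x
    by_cases hx : x ∈ M
    · obtain ⟨P, hP⟩ := exists_max hstrong h2 hx
      exact ⟨P, fun _ => hP⟩
    · exact ⟨∅, fun h => absurd h hx⟩
  choose P hP using hex
  have hPeq : ∀ x ∈ M, ∀ y ∈ P x, P y = P x := by
    intro x hx y hy
    have hyM : y ∈ M := (hP x hx).1.1 hy
    have h3 : P x ⊆ P y := (hP y hyM).2.2 _ (hP x hx).1 hy
    have h4 : P y ⊆ P x := (hP x hx).2.2 _ (hP y hyM).1 (h3 (hP x hx).2.1)
    exact Finset.Subset.antisymm h4 h3
  let I : Finset (Finset V) := M.image P
  obtain ⟨x0, hx0⟩ := hne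
  let e : I ≃ Fin I.card := I.equivFin
  let π : V → Fin I.card := fun x =>
    if h : x ∈ M then e ⟨P x, Finset.mem_image_of_mem P h⟩
    else e ⟨P x0, Finset.mem_image_of_mem P hx0⟩
  have hπ : ∀ x (h : x ∈ M), π x = e ⟨P x, Finset.mem_image_of_mem P h⟩ := by
    intro x h
    simp only [π, dif_pos h]
  have hπeq : ∀ x ∈ M, ∀ y ∈ M, (π x = π y ↔ P x = P y) := by
    intro x hx y hy
    rw [hπ x hx, hπ y hy, e.apply_eq_iff_eq, Subtype.mk.injEq]
  have hr : ∀ i : Fin I.card, ∃ r ∈ M, P r = (e.symm i : Finset V) := by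
    intro i
    exact Finset.mem_image.1 (e.symm i).2
  choose r hrM hrP using hr
  have hπr : ∀ i, π (r i) = i := by
    intro i
    rw [hπ _ (hrM i)]
    have : (⟨P (r i), Finset.mem_image_of_mem P (hrM i)⟩ : I) = e.symm i := Subtype.ext (hrP i)
    rw [this, Equiv.apply_symm_apply]
  have hrinj : Function.Injective r := fun i j hij => by
    rw [← hπr i, ← hπr j, hij]
  have hF : ∀ i, M.filter (fun x => π x = i) = P (r i) := by
    intro i
    ext x
    rw [Finset.mem_filter]
    constructor
    · rintro ⟨hx, hxi⟩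
      rw [← hπr i] at hxi
      rw [← (hπeq x hx (r i) (hrM i)).1 hxi]
      exact (hP x hx).2.1
    · intro hx
      have hxM : x ∈ M := (hP _ (hrM i)).1.1 hx
      refine ⟨hxM, ?_⟩
      rw [← hπr i]
      exact (hπeq x hxM (r i) (hrM i)).2 (hPeq _ (hrM i) x hx)
  let Q : Tournament (Fin I.card) := comap T r hrinj
  have harc : ∀ x ∈ M, ∀ y ∈ M, π x ≠ π y → (T.arc x y ↔ Q.arc (π x) (π y)) := by
    intro x hx y hy hxy
    have hrx : r (π x) ∈ P x := by
      rw [← (hπeq _ (hrM _) x hx).1 (hπr _)]
      exact (hP _ (hrM _)).2.1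
    have hry : r (π y) ∈ P y := by
      rw [← (hπeq _ (hrM _) y hy).1 (hπr _)]
      exact (hP _ (hrM _)).2.1
    have h3 : x ∉ P y := fun h => hxy ((hπeq x hx y hy).2 (hPeq y hy x h))
    have h4 : r (π y) ∉ P x := by
      intro h
      have h5 := hPeq x hx _ h
      have h6 := hPeq y hy _ hry
      exact hxy ((hπeq x hx y hy).2 (h5.symm.trans h6))
    have hmy := (hP y hy).1.2.2
    have hmx := (hP x hx).1.2.2
    have hyy := (hP y hy).2.1
    have hxx := (hP x hx).2.1
    constructor
    · intro h
      exact (module_out hmx h4 hxx hrx).2 ((module_out hmy h3 hyy hry).1 h)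
    · intro h
      exact (module_out hmy h3 hry hyy).1 ((module_out hmx h4 hrx hxx).2 h)
  have hmodF : ∀ i : Fin I.card, (M.filter (fun x => π x = i)).Nonempty ∧
      IsModule T (M.filter (fun x => π x = i)) ∧ Odd (M.filter (fun x => π x = i)).card := by
    intro i
    rw [hF i]
    obtain ⟨⟨h3, h4, h5⟩, h6, -⟩ := hP _ (hrM i)
    refine ⟨⟨_, h6⟩, h5, ?_⟩
    by_contra hodd
    rw [Nat.not_odd_iff_even] at hodd
    have h7 := hmin _ ⟨_, h6⟩ h5 hodd
    exact h4 (Finset.eq_of_subset_of_card_le h3 h7)
  have hsimple : IsSimple Q := by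
    intro Z hZ
    by_contra hcon
    push Not at hcon
    obtain ⟨hZ1, hZ2⟩ := hcon
    obtain ⟨i, hi, j, hj, hij⟩ := Finset.one_lt_card.1 hZ1
    have hY : IsModule T (M.filter (fun x => π x ∈ Z)) := by
      intro v hv
      by_cases hvM : v ∈ M
      · have hvZ : π v ∉ Z := fun h => hv (Finset.mem_filter.2 ⟨hvM, h⟩)
        rcases hZ _ hvZ with h | h
        · left
          intro x hx
          obtain ⟨hxM, hxZ⟩ := Finset.mem_filter.1 hx
          exact (harc v hvM x hxM (fun h' => hvZ (h' ▸ hxZ))).2 (h _ hxZ)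
        · right
          intro x hx
          obtain ⟨hxM, hxZ⟩ := Finset.mem_filter.1 hx
          exact (harc x hxM v hvM (fun h' => hvZ (h' ▸ hxZ))).2 (h _ hxZ)
      · rcases hM v hvM with h | h
        · exact Or.inl fun x hx => h x (Finset.mem_filter.1 hx).1
        · exact Or.inr fun x hx => h x (Finset.mem_filter.1 hx).1
    obtain ⟨l, hl⟩ : ∃ l, l ∉ Z := by
      by_contra h
      push Not at h
      exact hZ2 (Finset.eq_univ_iff_forall.2 h)
    have hYne : M.filter (fun x => π x ∈ Z) ≠ M := by
      intro h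
      have h3 : r l ∈ M.filter (fun x => π x ∈ Z) := by
        rw [h]
        exact hrM l
      have h4 := (Finset.mem_filter.1 h3).2
      rw [hπr] at h4
      exact hl h4
    have h3 := (hP _ (hrM i)).2.2 _ ⟨Finset.filter_subset _ _, hYne, hY⟩
      (Finset.mem_filter.2 ⟨hrM i, by rw [hπr]; exact hi⟩)
    have h4 : r j ∈ P (r i) := h3 (Finset.mem_filter.2 ⟨hrM j, by rw [hπr]; exact hj⟩)
    rw [← hF i] at h4
    have h5 := (Finset.mem_filter.1 h4).2
    rw [hπr] at h5
    exact hij h5.symm
  have hqeven : Even I.card := by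
    have hsum : M.card = ∑ i : Fin I.card, (M.filter (fun x => π x = i)).card :=
      Finset.card_eq_sum_card_fiberwise (f := π) (s := M) (t := Finset.univ)
        (fun x _ => Finset.mem_coe.2 (Finset.mem_univ _))
    rw [hsum, Finset.even_sum_iff_even_card_odd] at heven
    rw [Finset.filter_true_of_mem (fun i _ => (hmodF i).2.2)] at heven
    simpa using heven
  have hout : ∀ i, ∃ j, Q.arc i j := by
    intro i
    obtain ⟨⟨h3, h4, h5⟩, h6, -⟩ := hP _ (hrM i)
    obtain ⟨a, ha, b, hb, hab⟩ := hstrong (P (r i)) h3 ⟨_, h6⟩ h4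
    obtain ⟨hbM, hbP⟩ := Finset.mem_sdiff.1 hb
    rw [← hF i] at ha hbP
    obtain ⟨haM, hai⟩ := Finset.mem_filter.1 ha
    have hbi : π b ≠ i := fun h => hbP (Finset.mem_filter.2 ⟨hbM, h⟩)
    have h7 := (harc a haM b hbM (by rw [hai]; exact hbi.symm)).1 hab
    rw [hai] at h7
    exact ⟨_, h7⟩
  have hin : ∀ i, ∃ j, Q.arc j i := by
    intro i
    obtain ⟨⟨h3, h4, h5⟩, h6, -⟩ := hP _ (hrM i)
    obtain ⟨a, ha, b, hb, hab⟩ := hstrong (M \ P (r i)) Finset.sdiff_subset (by
      rw [Finset.sdiff_nonempty]
      intro h'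
      exact h4 (Finset.Subset.antisymm h3 h')) (by
      intro h'
      have : r i ∈ M \ P (r i) := by
        rw [h']
        exact hrM i
      exact (Finset.mem_sdiff.1 this).2 h6)
    obtain ⟨haM, haP⟩ := Finset.mem_sdiff.1 ha
    obtain ⟨hbM, hbP⟩ := Finset.mem_sdiff.1 hb
    have hbP' : b ∈ P (r i) := by
      by_contra hn
      exact hbP (Finset.mem_sdiff.2 ⟨hbM, hn⟩)
    rw [← hF i] at haP hbP'
    obtain ⟨-, hbi⟩ := Finset.mem_filter.1 hbP'
    have hai : π a ≠ i := fun h => haP (Finset.mem_filter.2 ⟨haM, h⟩)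
    have h7 := (harc a haM b hbM (by rw [hbi]; exact hai)).1 hab
    rw [hbi] at h7
    exact ⟨_, h7⟩
  have hpos : 0 < I.card := Fin.pos (π x0)
  exact ⟨I.card, Q, π, hqeven, six_le Q hsimple hout hin hqeven hpos, hsimple, hmodF, harc⟩

/-- A transitive set of parts has total weight at most `t`. -/
lemma weight_le {V : Type} [DecidableEq V] {T : Tournament V} {M : Finset V} {q : ℕ}
    {Q : Tournament (Fin q)} {π : V → Fin q}
    (harc : ∀ x ∈ M, ∀ y ∈ M, π x ≠ π y → (T.arc x y ↔ Q.arc (π x) (π y))) {t : ℕ}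
    (ht : ¬ ContainsTT T M (t + 1)) {s : Fin q → ℕ}
    (hs : ∀ i, ContainsTT T (M.filter (fun x => π x = i)) (s i)) (S : Finset (Fin q))
    (hS : IsTransitive Q S) : ∑ i ∈ S, s i ≤ t := by
  classical
  have hJ : ∀ i, ∃ J : Finset V, J ⊆ M.filter (fun x => π x = i) ∧ IsTransitive T J ∧
      J.card = s i := fun i => (containsTT_iff T).1 (hs i)
  choose J hJ1 hJ2 hJ3 using hJ
  have hmem : ∀ i, ∀ x ∈ J i, x ∈ M ∧ π x = i := fun i x hx => Finset.mem_filter.1 (hJ1 i hx)
  have hcard : (S.biUnion J).card = ∑ i ∈ S, s i := by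
    rw [Finset.card_biUnion]
    · exact Finset.sum_congr rfl fun i _ => hJ3 i
    · intro i _ j _ hij
      refine Finset.disjoint_left.2 ?_
      intro x hx hx'
      exact hij ((hmem i x hx).2.symm.trans (hmem j x hx').2)
  by_contra hlt
  push Not at hlt
  obtain ⟨S2, h4, h5⟩ := Finset.exists_subset_card_eq (s := S.biUnion J) (n := t + 1)
    (by rw [hcard]; omega)
  have htr : IsTransitive T (S.biUnion J) := by
    intro a ha b hb d hd hab hbd
    obtain ⟨i, hi, hai⟩ := Finset.mem_biUnion.1 ha
    obtain ⟨j, hj, hbj⟩ := Finset.mem_biUnion.1 hb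
    obtain ⟨l, hl, hdl⟩ := Finset.mem_biUnion.1 hd
    obtain ⟨haM, hπa⟩ := hmem i a hai
    obtain ⟨hbM, hπb⟩ := hmem j b hbj
    obtain ⟨hdM, hπd⟩ := hmem l d hdl
    by_cases hij : i = j
    · by_cases hjl : j = l
      · rw [← hij] at hbj hjl
        rw [← hjl] at hdl
        exact hJ2 i a hai b hbj d hdl hab hbd
      · have h6 : π b ≠ π d := by
          rw [hπb, hπd]
          exact hjl
        have h7 := (harc b hbM d hdM h6).1 hbd
        rw [hπb, ← hij, ← hπa] at h7 h6
        exact (harc a haM d hdM h6).2 h7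
    · have h6 : π a ≠ π b := by
        rw [hπa, hπb]
        exact hij
      have h7 := (harc a haM b hbM h6).1 hab
      by_cases hjl : j = l
      · rw [hπb, hjl, ← hπd] at h7 h6
        exact (harc a haM d hdM h6).2 h7
      · have h8 : π b ≠ π d := by
          rw [hπb, hπd]
          exact hjl
        have h9 := (harc b hbM d hdM h8).1 hbd
        rw [hπa, hπb] at h7
        rw [hπb, hπd] at h9
        have h10 := hS i hi j hj l hl h7 h9
        have h11 : π a ≠ π d := by
          rw [hπa, hπd]
          exact ne_of_arc h10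
        refine (harc a haM d hdM h11).2 ?_
        rw [hπa, hπd]
        exact h10
  refine ht ((containsTT_iff T).2 ⟨S2, ?_, htr.subset h4, h5⟩)
  intro x hx
  obtain ⟨i, -, hxi⟩ := Finset.mem_biUnion.1 (h4 hx)
  exact (hmem i x hxi).1

/-- **Main theorem.** Let `k ≥ 3`, suppose that `R(k)` is odd, and let `T` be a tournament on
`R(k) - 1` vertices without a copy of the transitive tournament on `k` vertices. Then `T` has a
nonempty strongly connected module `M` of even order `R(t + 1) - 1`, where `t` is the size of the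
largest transitive subtournament of `M`, and `M` is partitioned by `π` into an even number
`q ≥ 6` of nonempty modules `M_i` with a simple quotient tournament `Q`. Each `M_i` is strongly
connected and of odd order `R(s_i + 1) - 1`, where `s_i < t / 2` is the size of its largest
transitive subtournament. Every transitive set of `Q` has weight at most `t` for the weights
`s_i`, and for every colouring of the vertices of `Q` with two colours there is a transitive set
of `Q` of weight exactly `t` in which all vertices of the first colour come before all vertices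
of the second colour. -/
theorem result (k : ℕ) (hk : 3 ≤ k) (hodd : Odd (R k)) (T : Tournament (Fin (R k - 1)))
    (hT : ¬ ContainsTT T Finset.univ k) :
    ∃ (M : Finset (Fin (R k - 1))) (t q : ℕ) (Q : Tournament (Fin q))
      (π : Fin (R k - 1) → Fin q) (s : Fin q → ℕ),
      M.Nonempty ∧ IsModule T M ∧ IsStrong T M ∧ Even M.card ∧ TransNumber T M t ∧
      M.card + 1 = R (t + 1) ∧ Even q ∧ 6 ≤ q ∧ IsSimple Q ∧
      (∀ i : Fin q, (M.filter (fun x => π x = i)).Nonempty ∧
        IsModule T (M.filter (fun x => π x = i)) ∧ IsStrong T (M.filter (fun x => π x = i)) ∧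
        Odd (M.filter (fun x => π x = i)).card ∧
        TransNumber T (M.filter (fun x => π x = i)) (s i) ∧
        (M.filter (fun x => π x = i)).card + 1 = R (s i + 1) ∧ 2 * s i < t) ∧
      (∀ x ∈ M, ∀ y ∈ M, π x ≠ π y → (T.arc x y ↔ Q.arc (π x) (π y))) ∧
      (∀ S : Finset (Fin q), IsTransitive Q S → ∑ i ∈ S, s i ≤ t) ∧
      ∀ c : Fin q → Bool, ∃ S : Finset (Fin q), IsTransitive Q S ∧ ∑ i ∈ S, s i = t ∧
        IsMonotone Q S c := by
  classical
  have hopt : Optimal T := optimal_of_extremal T hT
  have hR3 : 3 ≤ R k := by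
    by_contra hlt
    have hcard : R k ≤ (Finset.univ : Finset (Fin 2)).card := by
      simp
      omega
    let T2 : Tournament (Fin 2) :=
      { arc := fun u v => u < v
        irrefl := fun v => lt_irrefl v
        one_arc := fun u v h => by
          constructor
          · exact fun h' => not_lt.2 h'.le
          · exact fun h' => lt_of_le_of_ne (not_lt.1 h') h }
    obtain ⟨S, hS, -, hcard'⟩ := exists_of_R_le T2 k Finset.univ hcard
    have := Finset.card_le_card hS
    simp at this
    omega
  have hn : Even (Fintype.card (Fin (R k - 1))) := by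
    rw [Fintype.card_fin]
    obtain ⟨m, hm⟩ := hodd
    exact ⟨m, by omega⟩
  let fam : Finset (Finset (Fin (R k - 1))) :=
    Finset.univ.filter (fun X => X.Nonempty ∧ IsModule T X ∧ Even X.card)
  have hfam : fam.Nonempty := by
    refine ⟨Finset.univ, Finset.mem_filter.2 ⟨Finset.mem_univ _, ?_, ?_, ?_⟩⟩
    · exact ⟨⟨0, by omega⟩, Finset.mem_univ _⟩
    · intro v hv
      exact absurd (Finset.mem_univ v) hv
    · exact hn
  obtain ⟨M, hM, hmin⟩ := Finset.exists_min_image fam Finset.card hfam
  obtain ⟨-, hMne, hMmod, hMeven⟩ := Finset.mem_filter.1 hM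
  obtain ⟨q, Q, π, h1, h2, h3, h5, h6⟩ := hopt.structure hMmod hMne hMeven
    (fun X hX1 hX2 hX3 => hmin X (Finset.mem_filter.2 ⟨Finset.mem_univ _, hX1, hX2, hX3⟩))
  obtain ⟨t, ht1, ht2, ht3⟩ := hopt.card hMmod hMne
  have hs : ∀ i, ∃ s, ContainsTT T (M.filter (fun x => π x = i)) s ∧
      ¬ ContainsTT T (M.filter (fun x => π x = i)) (s + 1) ∧
      (M.filter (fun x => π x = i)).card + 1 = R (s + 1) :=
    fun i => hopt.card (h5 i).2.1 (h5 i).1
  choose s hs1 hs2 hs3 using hs
  have hle := weight_le h6 ht2 hs1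
  refine ⟨M, t, q, Q, π, s, hMne, hMmod, hopt.strong hMmod, hMeven, ⟨ht1, ht2⟩, ht3, h1, h2, h3,
    ?_, h6, hle, ?_⟩
  · intro i
    obtain ⟨h7, h8, h9⟩ := h5 i
    refine ⟨h7, h8, hopt.strong h8, h9, ⟨hs1 i, hs2 i⟩, hs3 i, ?_⟩
    by_contra hlt
    push Not at hlt
    have hpar := hopt.half hMmod (Finset.filter_subset _ _) h8 h7 ht1 ht2 (hs1 i) (hs2 i) hlt
    obtain ⟨m, hm⟩ := hMeven
    obtain ⟨m', hm'⟩ := h9
    omega
  · intro c
    obtain ⟨S, hSM, hS, hmono, hmax⟩ := hopt.color hMmod hMne (fun x => c (π x))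
    have hne' : ∀ i j, Q.arc i j → i ≠ j := fun i j h => ne_of_arc h
    have hX : IsTransitive Q (S.image π) := by
      intro a ha b hb d hd hab hbd
      obtain ⟨a', ha', rfl⟩ := Finset.mem_image.1 ha
      obtain ⟨b', hb', rfl⟩ := Finset.mem_image.1 hb
      obtain ⟨d', hd', rfl⟩ := Finset.mem_image.1 hd
      have h3 := (h6 _ (hSM ha') _ (hSM hb') (hne' _ _ hab)).2 hab
      have h4 := (h6 _ (hSM hb') _ (hSM hd') (hne' _ _ hbd)).2 hbd
      have h5 := hS _ ha' _ hb' _ hd' h3 h4
      have h7 : π a' ≠ π d' := by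
        intro h
        rw [← h] at hbd
        exact asymm hab hbd
      exact (h6 _ (hSM ha') _ (hSM hd') h7).1 h5
    refine ⟨S.image π, hX, le_antisymm (hle _ hX) ?_, ?_⟩
    · have hSt : t ≤ S.card := by
        by_contra hlt
        push Not at hlt
        obtain ⟨J, hJM, hJ, hJc⟩ := (containsTT_iff T).1 ht1
        obtain ⟨J2, h7, h8⟩ := Finset.exists_subset_card_eq (s := J) (n := S.card + 1) (by omega)
        exact hmax J2 (h7.trans hJM) (hJ.subset h7) h8
      have hsum : S.card = ∑ i ∈ S.image π, (S.filter (fun x => π x = i)).card :=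
        Finset.card_eq_sum_card_image π S
      rw [hsum] at hSt
      refine hSt.trans (Finset.sum_le_sum fun i _ => ?_)
      by_contra hlt
      push Not at hlt
      obtain ⟨J2, h7, h8⟩ := Finset.exists_subset_card_eq (s := S.filter (fun x => π x = i))
        (n := s i + 1) (by omega)
      refine hs2 i ((containsTT_iff T).2 ⟨J2, ?_, hS.subset (h7.trans (Finset.filter_subset _ _)),
        h8⟩)
      intro x hx
      obtain ⟨h9, h10⟩ := Finset.mem_filter.1 (h7 hx)
      exact Finset.mem_filter.2 ⟨hSM h9, h10⟩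
    · intro a ha b hb hab hca
      obtain ⟨a', ha', rfl⟩ := Finset.mem_image.1 ha
      obtain ⟨b', hb', rfl⟩ := Finset.mem_image.1 hb
      exact hmono a' ha' b' hb' ((h6 _ (hSM ha') _ (hSM hb') (hne' _ _ hab)).2 hab) hca

end Pool.Agent.Results.MP_88ab92_co.EvenSimpleQuotient
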